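import Pool.Agent.MP_3ce0a0_al.H79.SpecN

/-
Modules of degree one with unipotent transvections.
-/

namespace Pool.Agent.MP_3ce0a0_al.H85

open Equiv Pool.Agent.MP_3ce0a0_al.H79

section comb
variable {ι : Type} [Fintype ι] [DecidableEq ι]

theorem fresh (hn : 12 ≤ Fintype.card ι) (l : List ι) (hl : l.length < 12) :
    ∃ u, u ∉ l := by
  by_contra h
  have h1 : (Finset.univ : Finset ι) ⊆ l.toFinset := fun u _ =>
    List.mem_toFinset.2 (not_not.1 fun hu => h ⟨u, hu⟩)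
  have h2 := (Finset.card_le_card h1).trans (List.toFinset_card_le l)
  rw [Finset.card_univ] at h2
  omega

theorem dbl (hn : 12 ≤ Fintype.card ι) {x y : ι} (hxy : x ≠ y) (l : List ι)
    (hl : l.length < 9) : ∃ σ : Perm ι, Perm.sign σ = 1 ∧ σ x = y ∧ σ y = x ∧
      ∀ s ∈ l, s ≠ x → s ≠ y → σ s = s := by
  obtain ⟨u, hu⟩ := fresh hn (x :: y :: l) (by simp; omega)
  obtain ⟨v, hv⟩ := fresh hn (u :: x :: y :: l) (by simp; omega)
  simp only [List.mem_cons, not_or] at hu hv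
  refine ⟨swap x y * swap u v, ?_, ?_, ?_, fun s hs h1 h2 => ?_⟩
  · rw [Perm.sign_mul, Perm.sign_swap hxy, Perm.sign_swap (Ne.symm hv.1)]
    simp
  · rw [Perm.mul_apply, swap_apply_of_ne_of_ne (Ne.symm hu.1) (Ne.symm hv.2.1), swap_apply_left]
  · rw [Perm.mul_apply, swap_apply_of_ne_of_ne (Ne.symm hu.2.1) (Ne.symm hv.2.2.1),
      swap_apply_right]
  · have h3 : s ≠ u := fun e => hu.2.2 (e ▸ hs)
    have h4 : s ≠ v := fun e => hv.2.2.2 (e ▸ hs)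
    rw [Perm.mul_apply, swap_apply_of_ne_of_ne h3 h4, swap_apply_of_ne_of_ne h1 h2]

end comb

section signs
variable {ι Z : Type} [AddCommGroup Z] [Module ℂ Z] {P : WS ι (Z ≃ₗ[ℂ] Z)}

theorem app {u v : Z ≃ₗ[ℂ] Z} (h : u = v) (z : Z) : u z = v z := h ▸ rfl

theorem inv_eq {u : Z ≃ₗ[ℂ] Z} {x y : Z} : u⁻¹ x = y ↔ u y = x := by
  constructor
  · rintro rfl
    exact app (mul_inv_cancel u) x
  · rintro rfl
    exact app (inv_mul_cancel u) y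

theorem mem_E0 {z : Z} : z ∈ E0 P ↔ ∀ a b, P.ε a (P.ε b z) = z := by
  simp [E0, Submodule.mem_iInf, sub_eq_zero]

theorem mem_Ea {z : Z} {a : ι} : z ∈ Ea P a ↔ ∀ f, f ≠ a → P.ε a (P.ε f z) = -z := by
  simp [Ea, Submodule.mem_iInf, add_eq_zero_iff_eq_neg]

theorem ee (a : ι) (z : Z) : P.ε a (P.ε a z) = z := app (P.ε_sq a) z

theorem ec (a b : ι) (z : Z) : P.ε a (P.ε b z) = P.ε b (P.ε a z) := app (P.ε_comm a b) z

theorem Ea_fix {z : Z} {c e f : ι} (hz : z ∈ Ea P c) (he : e ≠ c) (hf : f ≠ c) :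
    P.ε e (P.ε f z) = z := by
  have h1 : P.ε f z = P.ε e z :=
    (P.ε c).injective ((mem_Ea.1 hz f hf).trans (mem_Ea.1 hz e he).symm)
  rw [h1, ee]

theorem E0_eps {z : Z} (hz : z ∈ E0 P) (e f : ι) : P.ε e z = P.ε f z := by
  conv_lhs => rw [← mem_E0.1 hz e f]
  rw [ee]

theorem E0_ε {z : Z} (hz : z ∈ E0 P) (b : ι) : P.ε b z ∈ E0 P :=
  mem_E0.2 fun e f => by rw [ec f b, ec e b, mem_E0.1 hz]

theorem Ea_ε {z : Z} {c : ι} (hz : z ∈ Ea P c) (b : ι) : P.ε b z ∈ Ea P c :=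
  mem_Ea.2 fun f hf => by rw [ec f b, ec c b, mem_Ea.1 hz f hf, map_neg]

theorem E0_π {z : Z} (hz : z ∈ E0 P) (σ : Perm ι) : P.π σ z ∈ E0 P :=
  mem_E0.2 fun e f => by
    obtain ⟨e, rfl⟩ := σ.surjective e
    obtain ⟨f, rfl⟩ := σ.surjective f
    have h1 : ∀ a x, P.ε (σ a) (P.π σ x) = P.π σ (P.ε a x) := fun a x => (app (P.π_ε σ a) x).symm
    rw [h1, h1, mem_E0.1 hz]

theorem odd (hD : E0 P ⊔ ⨆ a, Ea P a = ⊤) {z : Z} {c f f' : ι} (h1 : f ≠ c) (h2 : f' ≠ c)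
    (h3 : f ≠ f') (hf : P.ε c (P.ε f z) = -z) (hf' : P.ε c (P.ε f' z) = -z) : z ∈ Ea P c := by
  let Q : ι → Z →ₗ[ℂ] Z := fun e => LinearMap.id - (P.ε c * P.ε e : Z ≃ₗ[ℂ] Z).toLinearMap
  have hQ : ∀ e x, Q e x = x - P.ε c (P.ε e x) := fun _ _ => rfl
  have key : ⊤ ≤ (Ea P c).comap (Q f ∘ₗ Q f') := by
    rw [← hD]
    refine sup_le (fun x hx => ?_) (iSup_le fun a x hx => ?_) <;>
      rw [Submodule.mem_comap, LinearMap.comp_apply, hQ f']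
    · rw [mem_E0.1 hx, sub_self, map_zero]
      exact zero_mem _
    · by_cases ha : a = c
      · subst ha
        rw [hQ]
        have h4 := sub_mem hx (Ea_ε (Ea_ε hx f') a)
        exact sub_mem h4 (Ea_ε (Ea_ε h4 f) a)
      · by_cases ha' : a = f'
        · subst ha'
          have h4 := sub_mem hx (Ea_ε (Ea_ε hx a) c)
          rw [hQ, Ea_fix h4 (Ne.symm ha) h3, sub_self]
          exact zero_mem _
        · rw [Ea_fix hx (Ne.symm ha) (Ne.symm ha'), sub_self, map_zero]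
          exact zero_mem _
  have h4 := (Ea P c).smul_mem (1 / 4 : ℂ) (key (Submodule.mem_top (x := z)))
  rw [LinearMap.comp_apply, hQ f', hf', map_sub, map_neg, hQ, hf] at h4
  convert h4 using 1
  module

theorem split {w : Z} {a f : ι} (h : ∀ e, e ≠ a → P.ε e (P.ε f w) = w) :
    ∃ Y ∈ E0 P, ∃ U ∈ Ea P a, w = Y + U := by
  have h1 : ∀ e, e ≠ a → P.ε e w = P.ε f w := fun e he => by
    conv_lhs => rw [← h e he]
    rw [ee]
  have h2 : ∀ e, P.ε e (w + P.ε a (P.ε f w)) = P.ε a w + P.ε f w := fun e => by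
    rw [map_add]
    by_cases he : e = a
    · rw [he, ee]
    · rw [ec e a, h e he, h1 e he, add_comm]
  refine ⟨(1 / 2 : ℂ) • (w + P.ε a (P.ε f w)), Submodule.smul_mem _ _ (mem_E0.2 fun e e' => ?_),
    (1 / 2 : ℂ) • (w - P.ε a (P.ε f w)), Submodule.smul_mem _ _ (mem_Ea.2 fun e he => ?_),
    by module⟩
  · rw [h2 e', ← h2 e, ee]
  · rw [map_sub, ec e a, h e he, h1 e he, map_sub, ee, neg_sub]

end signs

section main
variable {ι Z : Type} [Fintype ι] [DecidableEq ι] [AddCommGroup Z] [Module ℂ Z]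

/-- The hypotheses. -/
structure Hy (N : NS ι (Z ≃ₗ[ℂ] Z)) (L : (Z ≃ₗ[ℂ] Z) → Module.End ℂ Z) : Prop where
  hn : 12 ≤ Fintype.card ι
  hD : Deg1 N.toWS
  hU : ∀ a b, a ≠ b → Unip (N.ρ a b)
  hL : ∀ u, Unip u →
    (∀ g : Z ≃ₗ[ℂ] Z, Unip (g * u * g⁻¹) ∧ ∀ z, L (g * u * g⁻¹) (g z) = g (L u z)) ∧
    (∀ v, Unip v → Commute u v → L (u * v) = L u + L v) ∧
    (Unip u⁻¹ ∧ L u⁻¹ = -L u) ∧
    (∀ W : Submodule ℂ Z, (∀ z ∈ W, L u z ∈ W) → ∀ z ∈ W, ∃ y ∈ W, u z = z + L u y) ∧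
    (∀ z, u z = z → L u z = 0) ∧ ∀ z, L u (L u z) = 0 → u z = z + L u z

variable {N : NS ι (Z ≃ₗ[ℂ] Z)} {L : (Z ≃ₗ[ℂ] Z) → Module.End ℂ Z}

omit [Fintype ι] in
theorem r_even {a b e f : ι} (h : a ≠ b) (h1 : e ≠ a) (h2 : e ≠ b) (h3 : f ≠ a) (h4 : f ≠ b) :
    N.ε e * N.ε f * N.ρ a b = N.ρ a b * (N.ε e * N.ε f) :=
  ((N.ε_other a b e h h1 h2).mul_left (N.ε_other a b f h h3 h4)).eq

omit [Fintype ι] in
theorem r_right {a b f : ι} (h : a ≠ b) (h3 : f ≠ a) (h4 : f ≠ b) :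
    N.ε b * N.ε f * N.ρ a b = (N.ρ a b)⁻¹ * (N.ε b * N.ε f) := by
  rw [← N.ε_right a b h, mul_assoc, (N.ε_other a b f h h3 h4).eq, mul_assoc (N.ε b * N.ρ a b),
    ← mul_assoc (N.ε b) (N.ε b), N.ε_sq, one_mul, mul_assoc]

omit [Fintype ι] in
theorem r_left {a b f : ι} (h : a ≠ b) (h3 : f ≠ a) (h4 : f ≠ b) :
    N.ε a * N.ε f * N.ρ a b = (N.lam a b)⁻¹ * (N.ε a * N.ε f) := by
  rw [← N.ε_left a b h, mul_assoc, (N.ε_other a b f h h3 h4).eq, mul_assoc (N.ε a * N.ρ a b),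
    ← mul_assoc (N.ε a) (N.ε a), N.ε_sq, one_mul, mul_assoc]

omit [Fintype ι] in
theorem r_conj {a b c : ι} (h : a ≠ b) (h1 : c ≠ a) (h2 : c ≠ b) (z : Z) :
    N.ρ a b (N.ρ c a z) = N.ρ c a (N.ρ a b (N.ρ c b z)) := by
  have h3 : (N.ρ c a)⁻¹ (N.ρ a b (N.ρ c a z)) = N.ρ a b (N.ρ c b z) := app (N.conj_ρ a b c h h1 h2) z
  exact (inv_eq.1 h3).symm

omit [Fintype ι] in
theorem r_π (σ : Perm ι) {a b : ι} (h : a ≠ b) (z : Z) :
    N.π σ (N.ρ a b z) = N.ρ (σ a) (σ b) (N.π σ z) := app (N.π_ρ σ a b h) z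

namespace Hy
variable (H : Hy N L)
include H

theorem eqv {g u v : Z ≃ₗ[ℂ] Z} (hu : Unip u) (h : g * u = v * g) (z : Z) :
    L v (g z) = g (L u z) := by
  have h1 : v = g * u * g⁻¹ := by rw [h, mul_inv_cancel_right]
  rw [h1]
  exact ((H.hL u hu).1 g).2 z

theorem x_right {a b f : ι} (h : a ≠ b) (h3 : f ≠ a) (h4 : f ≠ b) (z : Z) :
    N.ε b (N.ε f (L (N.ρ a b) z)) = -L (N.ρ a b) (N.ε b (N.ε f z)) := by
  have h1 := H.eqv (H.hU a b h) (r_right h h3 h4) z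
  rw [(H.hL _ (H.hU a b h)).2.2.1.2] at h1
  exact h1.symm

theorem r_mem {a b c : ι} (h : a ≠ b) (h1 : c ≠ a) (h2 : c ≠ b) {z : Z} (hz : z ∈ Ea N.toWS c) :
    N.ρ a b z ∈ Ea N.toWS c := by
  obtain ⟨f, hf⟩ := fresh H.hn [a, b, c] (by simp)
  obtain ⟨f', hf'⟩ := fresh H.hn [a, b, c, f] (by simp)
  simp only [List.mem_cons, List.not_mem_nil, not_or] at hf hf'
  have key : ∀ e, e ≠ a → e ≠ b → e ≠ c → N.ε c (N.ε e (N.ρ a b z)) = -N.ρ a b z :=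
    fun e e1 e2 e3 => by
      refine (app (r_even h h1 h2 e1 e2) z).trans ?_
      change N.ρ a b (N.ε c (N.ε e z)) = _
      rw [mem_Ea.1 hz e e3, map_neg]
  exact odd H.hD.1 hf.2.2.1 hf'.2.2.1 (Ne.symm hf'.2.2.2.1) (key f hf.1 hf.2.1 hf.2.2.1)
    (key f' hf'.1 hf'.2.1 hf'.2.2.1)

theorem r_fix {a b c : ι} (h : a ≠ b) (h1 : c ≠ a) (h2 : c ≠ b) {z : Z} (hz : z ∈ Ea N.toWS c) :
    N.ρ a b z = z := by
  obtain ⟨d, hd⟩ := fresh H.hn [a, b, c] (by simp)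
  simp only [List.mem_cons, List.not_mem_nil, not_or] at hd
  obtain ⟨hda, hdb, hdc, -⟩ := hd
  have key : ∀ (σ : Perm ι) (e f : ι), Perm.sign σ = 1 → σ c = c → e ≠ f → c ≠ e → c ≠ f →
      ∀ x ∈ Ea N.toWS c, N.ρ e f x = N.ρ (σ e) (σ f) x := fun σ e f s1 s2 s3 s4 s5 x hx => by
    rw [← H.hD.2 c _ (H.r_mem s3 s4 s5 hx) σ s1 s2, r_π σ s3, H.hD.2 c x hx σ s1 s2]
  have e1 : ∀ x ∈ Ea N.toWS c, N.ρ d b x = N.ρ a b x := fun x hx => by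
    obtain ⟨σ, s1, s2, -, s4⟩ := dbl H.hn hda [b, c] (by simp)
    rw [key σ d b s1 (s4 c (by simp) (Ne.symm hdc) h1) hdb (Ne.symm hdc) h2 x hx, s2,
      s4 b (by simp) (Ne.symm hdb) (Ne.symm h)]
  have e2 : ∀ x ∈ Ea N.toWS c, N.ρ d a x = N.ρ a b x := fun x hx => by
    obtain ⟨σ, s1, s2, -, s4⟩ := dbl H.hn h [d, c] (by simp)
    rw [key σ d a s1 (s4 c (by simp) h1 h2) hda (Ne.symm hdc) h1 x hx, s2,
      s4 d (by simp) hda hdb, e1 x hx]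
  have m1 := H.r_mem h h1 h2 hz
  have h3 := r_conj (N := N) h hda hdb z
  rw [e1 z hz, e2 z hz, e2 _ (H.r_mem h h1 h2 m1)] at h3
  exact ((N.ρ a b).injective ((N.ρ a b).injective h3)).symm

theorem x_odd {a b : ι} (h : a ≠ b) {z : Z}
    (hz : ∀ f, f ≠ a → f ≠ b → N.ε b (N.ε f z) = z) : L (N.ρ a b) z ∈ Ea N.toWS b := by
  obtain ⟨f, hf⟩ := fresh H.hn [a, b] (by simp)
  obtain ⟨f', hf'⟩ := fresh H.hn [a, b, f] (by simp)
  simp only [List.mem_cons, List.not_mem_nil, not_or] at hf hf'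
  refine odd H.hD.1 hf.2.1 hf'.2.1 (Ne.symm hf'.2.2.1) ?_ ?_
  · rw [H.x_right h hf.1 hf.2.1, hz f hf.1 hf.2.1]
  · rw [H.x_right h hf'.1 hf'.2.1, hz f' hf'.1 hf'.2.1]

theorem first {a b : ι} (h : a ≠ b) {z : Z} (hz : z ∈ Ea N.toWS a) :
    L (N.ρ a b) z ∈ Ea N.toWS b ∧ N.ρ a b z = z + L (N.ρ a b) z ∧
      N.ρ a b (L (N.ρ a b) z) = L (N.ρ a b) z := by
  have h1 := H.x_odd h fun f hf _ => Ea_fix hz (Ne.symm h) hf
  obtain ⟨c, hc⟩ := fresh H.hn [a, b] (by simp)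
  simp only [List.mem_cons, List.not_mem_nil, not_or] at hc
  obtain ⟨hca, hcb, -⟩ := hc
  have h2 := H.eqv (H.hU a b h) (N.ρ_ρ c b a b hcb h hca hcb h).eq z
  rw [H.r_fix hcb (Ne.symm hca) h hz] at h2
  have h3 := (H.hL _ (H.hU c b hcb)).2.2.2.2.1 _ h2.symm
  obtain ⟨σ, s1, s2, -, s4⟩ := dbl H.hn hca [b] (by simp)
  have s5 := s4 b (by simp) (Ne.symm hcb) (Ne.symm h)
  have h4 := H.eqv (H.hU c b hcb) (N.π_ρ σ c b hcb) (L (N.ρ a b) z)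
  rw [s2, s5, H.hD.2 b _ h1 σ s1 s5, h3, map_zero] at h4
  refine ⟨h1, (H.hL _ (H.hU a b h)).2.2.2.2.2 z h4, ?_⟩
  rw [(H.hL _ (H.hU a b h)).2.2.2.2.2 _ (by rw [h4, map_zero]), h4, add_zero]

theorem dec {a b : ι} (h : a ≠ b) {z : Z} (hz : z ∈ Ea N.toWS b) :
    ∃ Y ∈ E0 N.toWS, ∃ U ∈ Ea N.toWS a, L (N.ρ a b) z = Y + U := by
  obtain ⟨f, hf⟩ := fresh H.hn [a, b] (by simp)
  simp only [List.mem_cons, List.not_mem_nil, not_or] at hf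
  refine split (f := f) fun e he => ?_
  by_cases hb : e = b
  · rw [hb, H.x_right h hf.1 hf.2.1, mem_Ea.1 hz f hf.2.1, map_neg, neg_neg]
  · refine (H.eqv (H.hU a b h) (r_even h he hb hf.1 hf.2.1) z).symm.trans ?_
    change L (N.ρ a b) (N.ε e (N.ε f z)) = _
    rw [Ea_fix hz hb hf.2.1]

theorem pair {a b c : ι} (h : a ≠ b) (hca : c ≠ a) (hcb : c ≠ b) {z Y U t s : Z}
    (hz : z ∈ Ea N.toWS b) (hY : Y ∈ E0 N.toWS) (hU : U ∈ Ea N.toWS a) (ht : t ∈ E0 N.toWS)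
    (hs : s ∈ Ea N.toWS c) (e1 : L (N.ρ a b) z = Y + U) (e2 : L (N.ρ c b) z = t + s) :
    ∃ y ∈ Ea N.toWS a, N.ρ c a y = y ∧ N.ρ c a Y = Y - y ∧ N.ρ c a t = t + y ∧
      ∀ σ : Perm ι, Perm.sign σ = 1 → σ a = a → σ c = c → N.π σ t = t := by
  obtain ⟨y1, y2, y3⟩ := H.first hca hs
  obtain ⟨f, hf⟩ := fresh H.hn [a, b, c] (by simp)
  simp only [List.mem_cons, List.not_mem_nil, not_or] at hf
  obtain ⟨hfa, hfb, hfc, -⟩ := hf
  have hfix : N.ρ c a z = z := H.r_fix hca (Ne.symm hcb) (Ne.symm h) hz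
  have E1 : N.ρ c a (Y + U + (t + s)) = Y + U := by
    have h1 := H.eqv (g := (N.ρ c a)⁻¹) (v := N.ρ a b * N.ρ c b) (H.hU a b h)
      (by rw [← N.conj_ρ a b c h hca hcb, mul_inv_cancel_right]) z
    rw [(H.hL _ (H.hU a b h)).2.1 _ (H.hU c b hcb) (N.ρ_ρ a b c b h hcb (Ne.symm hca) h hcb),
      inv_eq.2 hfix, LinearMap.add_apply, e1, e2] at h1
    exact inv_eq.1 h1.symm
  have E2 : N.ρ c a (t - s) = t - s := by
    have h0 := r_left (N := N) hcb hfc hfb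
    have h1 := H.eqv (H.hU c b hcb) h0 z
    have h2 : Unip (N.lam c b)⁻¹ := by
      rw [← mul_inv_eq_iff_eq_mul.2 h0]
      exact ((H.hL _ (H.hU c b hcb)).1 _).1
    have h3 := H.eqv h2 (N.ρ_lam c a c b hca hcb hcb hca).inv_right.eq z
    change L (N.lam c b)⁻¹ (N.ε c (N.ε f z)) = N.ε c (N.ε f (L (N.ρ c b) z)) at h1
    rw [Ea_fix hz hcb hfb, e2, map_add, map_add, mem_E0.1 ht, mem_Ea.1 hs f hfc,
      ← sub_eq_add_neg] at h1
    rw [hfix, h1] at h3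
    exact h3.symm
  have E3 : N.ρ c a (Y - U) = Y - U + (t + s) := by
    have h1 := app (r_right (N := N) hca hfc hfa) (Y + U + (t + s))
    change N.ε a (N.ε f (N.ρ c a _)) = (N.ρ c a)⁻¹ (N.ε a (N.ε f _)) at h1
    rw [E1] at h1
    simp only [map_add (N.ε a), map_add (N.ε f), mem_E0.1 hY, mem_E0.1 ht, mem_Ea.1 hU f hfa,
      Ea_fix hs (Ne.symm hca) hfc, ← sub_eq_add_neg] at h1
    exact inv_eq.1 h1.symm
  simp only [map_add, map_sub, y2] at E1 E2 E3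
  generalize L (N.ρ c a) s = y at y1 y2 y3 E1 E2
  have E4 : t = U - N.ρ c a U - y - s := by
    linear_combination (norm := module) (1 / 2 : ℂ) • E1 - (1 / 2 : ℂ) • E2 - (1 / 2 : ℂ) • E3
  refine ⟨y, y1, y3, ?_, ?_, fun σ s1 s2 s3 => ?_⟩
  · linear_combination (norm := module) (1 / 2 : ℂ) • E1 - (1 / 2 : ℂ) • E2 + (1 / 2 : ℂ) • E3
  · linear_combination (norm := module) E2
  · conv_lhs => rw [E4]
    rw [map_sub, map_sub, map_sub, r_π σ hca, s2, s3, H.hD.2 a U hU σ s1 s2,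
      H.hD.2 a y y1 σ s1 s2, H.hD.2 c s hs σ s1 s3, ← E4]

theorem far {a b e f : ι} (h : a ≠ b) {z Y U : Z} (hz : z ∈ Ea N.toWS b) (hU : U ∈ Ea N.toWS a)
    (e1 : L (N.ρ a b) z = Y + U) (hef : e ≠ f) (h1 : e ≠ a) (h2 : e ≠ b) (h3 : f ≠ a)
    (h4 : f ≠ b) : N.ρ e f Y = Y := by
  have h5 := H.eqv (H.hU a b h) (N.ρ_ρ a b e f h hef (Ne.symm h1) (Ne.symm h3) h2).symm.eq z
  rw [H.r_fix hef (Ne.symm h2) (Ne.symm h4) hz, e1, map_add,
    H.r_fix hef (Ne.symm h1) (Ne.symm h3) hU] at h5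
  exact (add_right_cancel h5).symm

theorem near {a b c : ι} (h : a ≠ b) (hca : c ≠ a) (hcb : c ≠ b) {z Y U : Z}
    (hz : z ∈ Ea N.toWS b) (hY : Y ∈ E0 N.toWS) (hU : U ∈ Ea N.toWS a)
    (e1 : L (N.ρ a b) z = Y + U) : N.ρ c a Y = Y := by
  obtain ⟨t, ht, s, hs, e2⟩ := H.dec hcb hz
  obtain ⟨y, y1, y2, y3, -, -⟩ := H.pair h hca hcb hz hY hU ht hs e1 e2
  obtain ⟨d, hd⟩ := fresh H.hn [a, b, c] (by simp)
  simp only [List.mem_cons, List.not_mem_nil, not_or] at hd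
  obtain ⟨hda, hdb, hdc, -⟩ := hd
  obtain ⟨σ, s1, s2, -, s4⟩ := dbl H.hn (Ne.symm hdc) [a, b] (by simp)
  have sa := s4 a (by simp) (Ne.symm hca) (Ne.symm hda)
  have sb := s4 b (by simp) (Ne.symm hcb) (Ne.symm hdb)
  have h1 : N.π σ Y = Y := by
    have h2 := H.eqv (H.hU a b h) (N.π_ρ σ a b h) z
    rw [sa, sb, H.hD.2 b z hz σ s1 sb, e1, map_add, H.hD.2 a U hU σ s1 sa] at h2
    exact (add_right_cancel h2).symm
  have h2 := r_π (N := N) σ hca Y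
  rw [y3, map_sub, h1, H.hD.2 a y y1 σ s1 sa, s2, sa] at h2
  have h3 := r_conj (N := N) hca hdc hda Y
  have h4 := H.far h hz hU e1 hdc hda hdb hca hcb
  rw [h4, ← h2, map_sub, y3, y2, map_sub, map_sub, h4,
    H.r_fix hdc (Ne.symm hda) (Ne.symm hca) y1] at h3
  have h5 : y = 0 := by linear_combination (norm := module) h3
  rw [y3, h5, sub_zero]

theorem second {a b : ι} (h : a ≠ b) {z Y U : Z} (hz : z ∈ Ea N.toWS b) (hY : Y ∈ E0 N.toWS)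
    (hU : U ∈ Ea N.toWS a) (e1 : L (N.ρ a b) z = Y + U) {e f : ι} (hef : e ≠ f) :
    N.ρ e f Y = Y := by
  have key : ∀ e f, e ≠ f → e ≠ b → f ≠ b → N.ρ e f Y = Y := fun e f hef h2 h4 => by
    by_cases h1 : e = a
    · subst h1
      obtain ⟨t, ht, s, hs, e2⟩ := H.dec h4 hz
      obtain ⟨y, -, -, y3, y4, -⟩ := H.pair h4 hef h hz ht hs hY hU e2 e1
      rw [H.near h4 hef h hz ht hs e2] at y3
      have h5 : y = 0 := by linear_combination (norm := module) y3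
      rw [y4, h5, add_zero]
    · by_cases h3 : f = a
      · subst h3
        exact H.near h h1 h2 hz hY hU e1
      · exact H.far h hz hU e1 hef h1 h2 h3 h4
  obtain ⟨c, hc⟩ := fresh H.hn [a, b] (by simp)
  obtain ⟨d, hd⟩ := fresh H.hn [a, b, c, e, f] (by simp)
  simp only [List.mem_cons, List.not_mem_nil, not_or] at hc hd
  obtain ⟨hca, hcb, -⟩ := hc
  obtain ⟨hda, hdb, hdc, hde, hdf, -⟩ := hd
  obtain ⟨t, ht, s, hs, e2⟩ := H.dec hcb hz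
  obtain ⟨y, -, -, -, -, y5⟩ := H.pair hcb (Ne.symm hca) h hz ht hs hY hU e2 e1
  obtain ⟨σ, s1, -, s3, s4⟩ := dbl H.hn (Ne.symm hdb) [a, c] (by simp)
  have h1 := y5 σ s1 (s4 c (by simp) hcb (Ne.symm hdc)) (s4 a (by simp) h (Ne.symm hda))
  have h2 := r_π (N := N) σ hef Y
  rw [h1, key (σ e) (σ f) (σ.injective.ne hef) (s3 ▸ σ.injective.ne (Ne.symm hde))
    (s3 ▸ σ.injective.ne (Ne.symm hdf))] at h2
  exact (N.π σ).injective (h2.trans h1.symm)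

end Hy

/-- The vectors fixed by everything. -/
def ZG (N : NS ι (Z ≃ₗ[ℂ] Z)) : Submodule ℂ Z where
  carrier := {z | z ∈ E0 N.toWS ∧ ∀ e f, e ≠ f → N.ρ e f z = z}
  add_mem' hx hy := ⟨add_mem hx.1 hy.1, fun e f h => by rw [map_add, hx.2 e f h, hy.2 e f h]⟩
  zero_mem' := ⟨zero_mem _, fun _ _ _ => map_zero _⟩
  smul_mem' c _ hx := ⟨Submodule.smul_mem _ c hx.1, fun e f h => by rw [map_smul, hx.2 e f h]⟩

/-- Automorphisms that move vectors of `A ⊔ W` by vectors of `B ⊔ W`. -/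
def Pr (A B W : Submodule ℂ Z) (g : Z ≃ₗ[ℂ] Z) : Prop := ∀ x ∈ A ⊔ W, g x - x ∈ B ⊔ W

theorem Pr.mul {A B W : Submodule ℂ Z} (h : B ≤ A) {g g' : Z ≃ₗ[ℂ] Z} (h1 : Pr A B W g)
    (h2 : Pr A B W g') : Pr A B W (g * g') := fun x hx => by
  have h3 : g' x ∈ A ⊔ W := by
    simpa using add_mem (sup_le_sup_right h W (h2 x hx)) hx
  have h4 := add_mem (h1 _ h3) (h2 x hx)
  rwa [sub_add_sub_cancel] at h4

omit [Fintype ι] in
theorem Pr.conj {B : Submodule ℂ Z} (h : B ≤ E0 N.toWS) {a b e f : ι} {g g' : Z ≃ₗ[ℂ] Z}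
    (hg : N.ε e * N.ε f * g = g' * (N.ε e * N.ε f))
    (h1 : Pr (E0 N.toWS) B (Ea N.toWS a ⊔ Ea N.toWS b) g) :
    Pr (E0 N.toWS) B (Ea N.toWS a ⊔ Ea N.toWS b) g' := fun x hx => by
  have key : ∀ C : Submodule ℂ Z, C ≤ E0 N.toWS → ∀ y ∈ C ⊔ (Ea N.toWS a ⊔ Ea N.toWS b),
      N.ε e (N.ε f y) ∈ C ⊔ (Ea N.toWS a ⊔ Ea N.toWS b) := fun C hC y hy => by
    obtain ⟨u, hu, v', hv', rfl⟩ := Submodule.mem_sup.1 hy
    obtain ⟨v, hv, w, hw, rfl⟩ := Submodule.mem_sup.1 hv'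
    simp only [map_add, mem_E0.1 (hC hu)]
    exact Submodule.add_mem_sup hu (Submodule.add_mem_sup (Ea_ε (Ea_ε hv f) e) (Ea_ε (Ea_ε hw f) e))
  have h2 := key B h _ (h1 _ (key _ le_rfl x hx))
  have h3 : ∀ y, N.ε e (N.ε f (N.ε e (N.ε f y))) = y := fun y => by rw [ec f e, ee, ee]
  have h4 : N.ε e (N.ε f (g (N.ε e (N.ε f x)))) = g' (N.ε e (N.ε f (N.ε e (N.ε f x)))) := app hg _
  rwa [map_sub, map_sub, h4, h3] at h2

namespace Hy
variable (H : Hy N L)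
include H

theorem pr {a b : ι} (h : a ≠ b) :
    Pr (E0 N.toWS) (ZG N) (Ea N.toWS a ⊔ Ea N.toWS b) (N.ρ a b) := by
  have key : ∀ x ∈ E0 N.toWS ⊔ (Ea N.toWS a ⊔ Ea N.toWS b),
      L (N.ρ a b) x ∈ ZG N ⊔ (Ea N.toWS a ⊔ Ea N.toWS b) := fun x hx => by
    obtain ⟨u, hu, v', hv', rfl⟩ := Submodule.mem_sup.1 hx
    obtain ⟨v, hv, w, hw, rfl⟩ := Submodule.mem_sup.1 hv'
    obtain ⟨Y, hY, U, hU, e1⟩ := H.dec h hw
    rw [map_add, map_add, e1]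
    refine add_mem ?_ (add_mem ?_ (Submodule.add_mem_sup
      ⟨hY, fun e f hef => H.second h hw hY hU e1 hef⟩ (Submodule.mem_sup_left hU)))
    · exact Submodule.mem_sup_right (Submodule.mem_sup_right
        (H.x_odd h fun f _ _ => mem_E0.1 hu b f))
    · exact Submodule.mem_sup_right (Submodule.mem_sup_right (H.first h hv).1)
  intro x hx
  have hle : ZG N ≤ E0 N.toWS := fun _ hu => hu.1
  obtain ⟨y, hy, e⟩ := (H.hL _ (H.hU a b h)).2.2.2.1 _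
    (fun z hz => sup_le_sup_right hle (Ea N.toWS a ⊔ Ea N.toWS b) (key z hz)) x hx
  rw [e, add_sub_cancel_left]
  exact key y hy

omit [Fintype ι] H in
theorem w_fix {a b : ι} (h : a ≠ b) {z : Z} (h1 : N.ρ a b z = z) (h2 : N.ρ b a z = z)
    (h3 : ∃ f, f ≠ a ∧ f ≠ b ∧ N.ε a (N.ε f z) = z) : N.π (swap a b) (N.ε b z) = z := by
  obtain ⟨f, hfa, hfb, hf⟩ := h3
  have h4 := app (r_left (N := N) h hfa hfb) z
  change N.ε a (N.ε f (N.ρ a b z)) = (N.lam a b)⁻¹ (N.ε a (N.ε f z)) at h4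
  rw [h1, hf] at h4
  refine (app (N.gersten a b h) z).symm.trans ?_
  change N.ρ a b ((N.ρ b a)⁻¹ (N.lam a b z)) = z
  rw [inv_eq.1 h4.symm, inv_eq.2 h2, h1]

theorem t1 {a b : ι} (h : a ≠ b) {z : Z} (hz : z ∈ E0 N.toWS) :
    N.π (swap a b) (N.ε b z) = z := by
  obtain ⟨f, hf⟩ := fresh H.hn [a, b] (by simp)
  simp only [List.mem_cons, List.not_mem_nil, not_or] at hf
  obtain ⟨hfa, hfb, -⟩ := hf
  have hle : ZG N ≤ E0 N.toWS := fun _ hu => hu.1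
  have p1 := H.pr h
  have p2 : Pr (E0 N.toWS) (ZG N) (Ea N.toWS a ⊔ Ea N.toWS b) (N.ρ b a)⁻¹ :=
    Pr.conj hle (r_right (Ne.symm h) hfb hfa) (by rw [sup_comm]; exact H.pr (Ne.symm h))
  have p3 : Pr (E0 N.toWS) (ZG N) (Ea N.toWS a ⊔ Ea N.toWS b) (N.lam a b) := by
    refine Pr.conj hle (e := a) (f := f) ?_ (Pr.conj hle (r_right h hfa hfb) p1)
    rw [mul_inv_eq_iff_eq_mul, mul_assoc (N.lam a b), r_left h hfa hfb, mul_inv_cancel_left]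
  have p4 := Pr.mul hle (Pr.mul hle p1 p2) p3 z (Submodule.mem_sup_left hz)
  rw [N.gersten a b h] at p4
  change N.π (swap a b) (N.ε b z) - z ∈ _ at p4
  have h0 : N.π (swap a b) (N.ε b z) - z ∈ E0 N.toWS := sub_mem (E0_π (E0_ε hz b) _) hz
  obtain ⟨u, hu, v', hv', e⟩ := Submodule.mem_sup.1 p4
  obtain ⟨v, hv, w, hw, rfl⟩ := Submodule.mem_sup.1 hv'
  rw [← e] at h0
  have h1 := mem_E0.1 h0 a f
  have h2 := mem_E0.1 h0 b f
  simp only [map_add, mem_E0.1 hu.1, mem_Ea.1 hv f hfa, mem_Ea.1 hw f hfb, Ea_fix hw h hfb,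
    Ea_fix hv (Ne.symm h) hfa] at h1 h2
  have h3 : N.π (swap a b) (N.ε b z) = z + u := by
    linear_combination (norm := module) -e - (1 / 2 : ℂ) • h1 - (1 / 2 : ℂ) • h2
  have h4 := Hy.w_fix h (hu.2 a b h) (hu.2 b a (Ne.symm h)) ⟨f, hfa, hfb, mem_E0.1 hu.1 a f⟩
  have h5 : N.π (swap a b) (N.ε b (N.π (swap a b) (N.ε b z))) = z := by
    refine (app (N.π_ε (swap a b) b) _).trans ?_
    change N.ε (swap a b b) ((N.π (swap a b) * N.π (swap a b)) (N.ε b z)) = z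
    rw [← map_mul, swap_mul_self, map_one]
    exact mem_E0.1 hz _ _
  rw [h3, map_add, map_add, h3, h4] at h5
  linear_combination (norm := module) h3 + (1 / 2 : ℂ) • h5

theorem t2 (b : ι) (σ : Perm ι) : ∀ z ∈ E0 N.toWS,
    N.π σ z = if Perm.sign σ = 1 then z else N.ε b z := by
  induction σ using Perm.swap_induction_on with
  | one => exact fun z _ => by simp
  | swap_mul σ x y hxy ih =>
    intro z hz
    have h1 : ∀ w ∈ E0 N.toWS, N.π (swap x y) w = N.ε b w := fun w hw => by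
      have h2 := H.t1 hxy (E0_ε hw y)
      rwa [ee, E0_eps hw y b] at h2
    rw [map_mul, Perm.sign_mul, Perm.sign_swap hxy]
    change N.π (swap x y) (N.π σ z) = _
    rw [ih z hz]
    rcases Int.units_eq_one_or (Perm.sign σ) with h | h <;> rw [h]
    · rw [if_pos rfl, if_neg (by decide), h1 z hz]
    · rw [if_neg (by decide), if_pos (by decide), h1 _ (E0_ε hz b), ee]

end Hy

end main

theorem sdeg (h : SLog) : SDeg := by
  intro ι Z _ _ _ _ _ N hn hD hU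
  obtain ⟨L, hL⟩ := h Z
  have H : Hy N L := ⟨hn, hD, hU, hL⟩
  refine ⟨fun a b hab z hz => H.t1 hab hz, fun σ hσ z hz => ?_, fun a b c h1 h2 h3 z hz => ?_⟩
  · obtain ⟨b, -⟩ := fresh hn ([] : List ι) (by simp)
    rw [H.t2 b σ z hz, if_pos hσ]
  · obtain ⟨f, hf⟩ := fresh hn [a, b, c] (by simp)
    simp only [List.mem_cons, List.not_mem_nil, not_or] at hf
    exact Hy.w_fix h1 (H.r_fix h1 (Ne.symm h2) (Ne.symm h3) hz)
      (H.r_fix (Ne.symm h1) (Ne.symm h3) (Ne.symm h2) hz)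
      ⟨f, hf.1, hf.2.1, Ea_fix hz h2 hf.2.2.1⟩

end Pool.Agent.MP_3ce0a0_al.H85
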