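import Pool.Agent.MP_3ce0a0_al.H79.SpecS

/-
Large subgroups of a symmetric group contain a large alternating group.
-/

namespace Pool.Agent.MP_3ce0a0_al.H85

open Equiv Pool.Agent.MP_3ce0a0_al.H79 Finset
open scoped Nat

namespace Big

lemma fact_shift (x z t : ℕ) (h : z ≤ x) : x ! * (z + t)! ≤ (x + t)! * z ! := by
  induction t with
  | zero => simp
  | succ t ih =>
    rw [← add_assoc, ← add_assoc, Nat.factorial_succ, Nat.factorial_succ]
    calc x ! * ((z + t + 1) * (z + t)!) = (z + t + 1) * (x ! * (z + t)!) := by ring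
      _ ≤ (x + t + 1) * ((x + t)! * z !) := Nat.mul_le_mul (by omega) ih
      _ = _ := by ring

lemma fact_add (x y : ℕ) : x ! * y ! ≤ (x + y)! :=
  Nat.le_of_dvd (Nat.factorial_pos _) (Nat.factorial_mul_factorial_dvd_factorial_add x y)

/-- The product of the factorials of bounded numbers. -/
lemma prod_fact {ι : Type} (s : Finset ι) (f : ι → ℕ) (M : ℕ) (h : ∀ i ∈ s, f i ≤ M) :
    ∏ i ∈ s, (f i)! ≤ (min (∑ i ∈ s, f i) M)! * (∑ i ∈ s, f i - M)! := by
  classical
  induction s using Finset.induction_on with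
  | empty => simp
  | insert i s hi ih =>
    rw [prod_insert hi, sum_insert hi]
    have h1 := ih (fun j hj => h j (mem_insert_of_mem hj))
    have h2 := h i (mem_insert_self _ _)
    generalize ∑ i ∈ s, f i = S at h1 ⊢
    generalize f i = y at h2 ⊢
    refine (Nat.mul_le_mul_left _ h1).trans ?_
    by_cases h3 : M ≤ S
    · rw [min_eq_right h3, min_eq_right (by omega), show y + S - M = y + (S - M) by omega,
        mul_left_comm]
      exact Nat.mul_le_mul_left _ (fact_add _ _)
    · rw [min_eq_left (by omega), show S - M = 0 by omega, Nat.factorial_zero, mul_one]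
      by_cases h4 : y + S ≤ M
      · rw [min_eq_left h4, show y + S - M = 0 by omega, Nat.factorial_zero, mul_one]
        exact fact_add _ _
      · have := fact_shift y (y + S - M) (M - y) (by omega)
        rw [show y + S - M + (M - y) = S by omega, show y + (M - y) = M by omega] at this
        rw [min_eq_right (by omega)]
        exact this

lemma three_fact (a b c M : ℕ) (ha : a ≤ M) (hb : b ≤ M) (hc : c ≤ M) (h : M ≤ a + b + c) :
    a ! * b ! * c ! ≤ M ! * (a + b + c - M)! := by
  have := prod_fact univ ![a, b, c] M (fun i _ => by fin_cases i <;> simpa)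
  simpa [Fin.prod_univ_three, Fin.sum_univ_three, min_eq_right h] using this

variable {α : Type} [Fintype α] [DecidableEq α] (G : Subgroup (Perm α))

/-- A large group has a large orbit. -/
lemma exists_orbit (M : ℕ) (hM : M ≤ Fintype.card α)
    (h : M ! * (Fintype.card α - M)! < Nat.card G) :
    ∃ X : Finset α, M < X.card ∧ (∀ g ∈ G, ∀ x, g x ∈ X ↔ x ∈ X) ∧
      ∀ x ∈ X, ∀ y ∈ X, ∃ g ∈ G, g x = y := by
  classical
  let f : α → MulAction.orbitRel.Quotient G α := Quotient.mk''
  have hf : ∀ g ∈ G, ∀ x, f (g x) = f x := fun g hg x =>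
    Quotient.sound' (MulAction.orbitRel_apply.2 ⟨⟨g, hg⟩, rfl⟩)
  by_contra hne
  push Not at hne
  have h1 : Nat.card G ≤ Fintype.card {g : Perm α // f ∘ g = f} := by
    rw [← Nat.card_eq_fintype_card]
    refine Nat.card_le_card_of_injective
      (fun g => (⟨g.1, funext (hf g.1 g.2)⟩ : {g : Perm α // f ∘ g = f})) (fun g g' e => ?_)
    exact Subtype.ext (Subtype.mk.inj e)
  rw [DomMulAct.stabilizer_card'] at h1
  have h2 := prod_fact (univ.image f) (fun i => Fintype.card {a // f a = i}) M (fun i _ => by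
    by_contra h3
    obtain ⟨x, hx, y, hy, h4⟩ := hne (univ.filter (fun a => f a = i))
      (by rw [Fintype.card_subtype] at h3; omega) (fun g hg x => by simp [hf g hg x])
    have h5 : f y = f x := (mem_filter.1 hy).2.trans (mem_filter.1 hx).2.symm
    obtain ⟨g, hg⟩ := MulAction.orbitRel_apply.1 (Quotient.exact' h5)
    exact h4 g.1 g.2 hg)
  have h3 : ∑ i ∈ univ.image f, Fintype.card {a // f a = i} = Fintype.card α := by
    rw [← card_univ, card_eq_sum_card_image f univ]
    exact sum_congr rfl (fun i _ => Fintype.card_subtype _)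
  rw [h3, min_eq_right hM] at h2
  omega

/-- Restriction to an invariant set. -/
def res (p : α → Prop) (hp : ∀ g ∈ G, ∀ x, p (g x) ↔ p x) : G →* Perm {a // p a} where
  toFun g := g.1.subtypePerm (hp g.1 g.2)
  map_one' := rfl
  map_mul' _ _ := rfl

omit [Fintype α] [DecidableEq α] in
lemma res_apply (p : α → Prop) (hp : ∀ g ∈ G, ∀ x, p (g x) ↔ p x) (g : G) (x : {a // p a}) :
    (res G p hp g x : α) = g.1 x := rfl

omit [Fintype α] [DecidableEq α] in
lemma res_eq_one (p : α → Prop) (hp : ∀ g ∈ G, ∀ x, p (g x) ↔ p x) (g : G) :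
    res G p hp g = 1 ↔ ∀ x, p x → g.1 x = x :=
  ⟨fun h x hx => congrArg Subtype.val (congrArg (fun e : Perm {a // p a} => e ⟨x, hx⟩) h),
    fun h => Equiv.ext (fun x => Subtype.ext (h x.1 x.2))⟩

omit [Fintype α] [DecidableEq α] in
lemma card_split {H : Type} [Group H] (ψ : G →* H) :
    Nat.card G = Nat.card ψ.range * Nat.card ψ.ker := by
  rw [Subgroup.card_eq_card_quotient_mul_card_subgroup ψ.ker,
    Nat.card_congr (QuotientGroup.quotientKerEquivRange ψ).toEquiv]

omit [Fintype α] [DecidableEq α] in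
lemma res_inj (p q : α → Prop) (hp : ∀ g ∈ G, ∀ x, p (g x) ↔ p x)
    (hq : ∀ g ∈ G, ∀ x, q (g x) ↔ q x) (hpq : ∀ x, p x ∨ q x) :
    Function.Injective ((res G q hq).comp (res G p hp).ker.subtype) := by
  rw [injective_iff_map_eq_one]
  intro g hg
  have h1 := (res_eq_one G p hp g.1).1 g.2
  have h2 := (res_eq_one G q hq g.1).1 hg
  exact Subtype.ext (Subtype.ext (Equiv.ext (fun x => (hpq x).elim (h1 x) (h2 x))))

/-- A group of order more than two normalised by the alternating group contains it. -/
lemma alt_le {β : Type} [Fintype β] [DecidableEq β] (K : Subgroup (Perm β))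
    (h5 : 5 ≤ Fintype.card β) (hK : 2 < Nat.card K)
    (hn : ∀ σ ∈ alternatingGroup β, ∀ g ∈ K, σ * g * σ⁻¹ ∈ K) : alternatingGroup β ≤ K := by
  have hN : (K.subgroupOf (alternatingGroup β)).Normal :=
    ⟨fun g hg σ => hn σ.1 σ.2 g.1 hg⟩
  have := alternatingGroup.isSimpleGroup (α := β) (by rwa [Nat.card_eq_fintype_card])
  rcases hN.eq_bot_or_eq_top with h | h
  · exfalso
    have h1 : Function.Injective ((Perm.sign : Perm β →* ℤˣ).comp K.subtype) := by
      rw [injective_iff_map_eq_one]
      intro g hg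
      have h2 : (⟨g.1, hg⟩ : alternatingGroup β) ∈ K.subgroupOf (alternatingGroup β) := g.2
      rw [h, Subgroup.mem_bot] at h2
      exact Subtype.ext (Subtype.mk.inj h2)
    have h2 := Nat.card_le_card_of_injective _ h1
    rw [Nat.card_eq_fintype_card (α := ℤˣ), Fintype.card_units_int] at h2
    omega
  · exact Subgroup.subgroupOf_eq_top.1 h

end Big

open Big in
/-- Large subgroups of a symmetric group contain a large alternating group. -/
theorem sgl (h : STB) : SGL := by
  intro α _ _ G k hk hn hG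
  have hpos : 0 < k ! * (Fintype.card α - k)! := Nat.mul_pos (Nat.factorial_pos _) (Nat.factorial_pos _)
  rw [mul_assoc] at hG
  obtain ⟨X, hX, hinv, htr⟩ := exists_orbit G (Fintype.card α - k) (by omega) (by
    rw [show Fintype.card α - (Fintype.card α - k) = k by omega, mul_comm]
    omega)
  have hXn : X.card ≤ Fintype.card α := card_le_univ X
  have hc : Xᶜ.card = Fintype.card α - X.card := card_compl X
  have hinv' : ∀ g ∈ G, ∀ x, g x ∉ X ↔ x ∉ X := fun g hg x => (hinv g hg x).not
  refine ⟨X, by omega, fun g hg x hx => (hinv g hg x).2 hx, ?_⟩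
  set ρ := res G (fun a => a ∈ X) hinv with hρ
  set ρ' := res G (fun a => a ∉ X) hinv' with hρ'
  have e1 : Fintype.card {a // a ∈ X} = X.card := Fintype.card_coe X
  have e2 : Nat.card (Perm {a // a ∉ X}) = (Fintype.card α - X.card)! := by
    rw [Nat.card_eq_fintype_card, Fintype.card_perm, Fintype.card_subtype_compl, e1]
  have hA : alternatingGroup {a // a ∈ X} ≤ ρ.range := by
    by_contra hne
    have h1 := h {a // a ∈ X} ρ.range (by omega) ⟨fun x y => by
      obtain ⟨g, hg, e⟩ := htr x.1 x.2 y.1 y.2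
      exact ⟨⟨ρ ⟨g, hg⟩, ⟨g, hg⟩, rfl⟩, Subtype.ext e⟩⟩ hne
    have h2 := Nat.card_le_card_of_injective _
      (res_inj G (fun a => a ∈ X) (fun a => a ∉ X) hinv hinv' (fun x => em _))
    rw [e2] at h2
    rw [e1] at h1
    have h3 := three_fact (X.card / 2) (X.card - X.card / 2) (Fintype.card α - X.card)
      (Fintype.card α - k) (by omega) (by omega) (by omega) (by omega)
    rw [show X.card / 2 + (X.card - X.card / 2) + (Fintype.card α - X.card) -
      (Fintype.card α - k) = k by omega] at h3
    have h4 := Nat.mul_le_mul h1 h2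
    rw [← card_split G ρ] at h4
    nlinarith
  have hK : 2 < Nat.card ρ'.ker := by
    have h1 := card_split G ρ'
    have h2 : Nat.card ρ'.range ≤ k ! :=
      (Subgroup.card_le_card_group _).trans (e2.le.trans (Nat.factorial_le (by omega)))
    by_contra h3
    have h4 := Nat.mul_le_mul h2 (not_lt.1 h3)
    have h5 := Nat.mul_le_mul_left (k !) (Nat.factorial_pos (Fintype.card α - k))
    omega
  have hinj := res_inj G (fun a => a ∉ X) (fun a => a ∈ X) hinv' hinv (fun x => (em _).symm)
  have hAK := alt_le (ρ.comp ρ'.ker.subtype).range (by omega) (by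
    rwa [← Nat.card_congr (MonoidHom.ofInjective hinj).toEquiv]) (by
    rintro σ hσ _ ⟨g, rfl⟩
    obtain ⟨t, rfl⟩ := hA hσ
    exact ⟨⟨t * g.1 * t⁻¹, (MonoidHom.normal_ker ρ').conj_mem _ g.2 t⟩, by simp⟩)
  intro σ hσ hfix
  have hσ' : ∀ x, σ x ∈ X ↔ x ∈ X := fun x => by
    constructor
    · intro hx
      by_contra h1
      exact h1 (hfix x h1 ▸ hx)
    · intro hx
      by_contra h1
      exact h1 ((σ.injective (hfix _ h1)).symm ▸ hx)
  obtain ⟨g, hg⟩ := hAK (x := σ.subtypePerm hσ') (by
    rw [Perm.mem_alternatingGroup, ← hσ]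
    refine Eq.trans ?_ (Perm.sign_subtypePerm σ hσ' (fun x hx => by
      by_contra h1
      exact hx (hfix x h1)))
    exact congrArg (fun i : Fintype {a // a ∈ X} => @Perm.sign _ _ i (σ.subtypePerm hσ'))
      (Subsingleton.elim _ _))
  have e : σ = g.1.1 := Equiv.ext (fun x => by
    by_cases hx : x ∈ X
    · exact (congrArg Subtype.val
        (congrArg (fun e : Perm {a // a ∈ X} => e ⟨x, hx⟩) hg)).symm
    · rw [hfix x hx, (res_eq_one G _ hinv' g.1).1 g.2 x hx])
  rw [e]
  exact g.1.2

end Pool.Agent.MP_3ce0a0_al.H85
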