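import Pool.Agent.MP_3ce0a0_al.H79.Y3B

/-
The second half of the central case.
-/

namespace Pool.Agent.MP_3ce0a0_al.H79.Y

open Equiv Module Pool.Agent.MP_3ce0a0_al.H79.X

namespace H85

variable {H : Type} [AddCommGroup H] [Module ℂ H] {N : NS (Fin 3) (GH H)}

lemma DD_ρ (hc : Cen N) {a b : Fin 3} (h : a ≠ b) (v : H) :
    DD N.toWS (N.ρ a b v) = N.ρ a b (DD N.toWS v) := by
  have h1 := gap ((hc a b h).symm.trans (lam_eq N h)) (DD N.toWS v)
  have h2 := gap (DD_sq N.toWS) v
  rw [gmul, gone] at h2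
  rw [gmul, gmul, h2] at h1
  exact h1.symm

lemma tp_ρ (hc : Cen N) (x y : Fin 3) {a b : Fin 3} (h : a ≠ b) (v : H) :
    tp N.toWS x y (N.ρ a b v) = N.ρ (swap x y a) (swap x y b) (tp N.toWS x y v) := by
  rw [tp, gmul, gmul, DD_ρ hc h]
  exact gap (N.π_ρ (swap x y) a b h) _

lemma triv (hc : Cen N) (U : Submodule ℂ H) (ht : ∀ a b, a ≠ b → ∀ v ∈ U, tp N.toWS a b v = v)
    (hk : ∀ a b, a ≠ b → ∀ v ∈ U, N.ρ a b v ∈ U) {a b : Fin 3} (h : a ≠ b) {v : H} (hv : v ∈ U) :
    N.ρ a b v = v := by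
  obtain ⟨c, d⟩ := D3.ex h
  have k : ∀ x y, x ≠ y → ∀ a b, a ≠ b → ∀ v ∈ U,
      N.ρ (swap x y a) (swap x y b) v = N.ρ a b v := fun x y hxy a b hab v hv => by
    have := tp_ρ hc x y hab v
    rw [ht x y hxy _ (hk a b hab v hv), ht x y hxy v hv] at this
    exact this.symm
  have k1 : ∀ v ∈ U, N.ρ c b v = N.ρ a b v := fun v hv => by
    simpa [swap_apply_of_ne_of_ne h.symm d.2.2.symm] using k a c d.2.1.symm a b h v hv
  have k2 : ∀ v ∈ U, N.ρ c a v = N.ρ c b v := fun v hv => by
    simpa [swap_apply_of_ne_of_ne d.2.1 d.2.2] using k a b h c b d.2.2 v hv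
  have s := gap (stein N d) v
  have m1 := hk a b h v hv
  rw [gmul, gmul, gmul, k2 v hv, k1 v hv, k2 _ (hk a b h _ m1), k1 _ (hk a b h _ m1)] at s
  exact ((N.ρ a b).injective ((N.ρ a b).injective s)).symm

end H85

open H85 in
theorem sg2 : SG2 := by
  intro H _ _ _ N e g σ hd hc hA hG
  obtain ⟨g1, g2, g3⟩ := hG
  have d0 : D3 0 1 2 := by unfold D3; decide
  rcases hA.1 with rfl | rfl
  · left
    have s1 : ∀ p, sg 1 p = 1 := fun p => by rcases sg_cases 1 p with k | k <;> exact k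
    have ht := hA.2.2.2.2 rfl
    have t0 : ∀ a b, a ≠ b → ∀ v ∈ Se N.toWS ∅, tp N.toWS a b v = v := fun a b h v hv =>
      ht a b h v (Submodule.mem_sup_left hv)
    have t3 : ∀ a b, a ≠ b → ∀ v ∈ Se N.toWS Finset.univ, tp N.toWS a b v = v := fun a b h v hv =>
      ht a b h v (Submodule.mem_sup_right hv)
    have g0 : ∀ a, g a = 0 := fun a => by
      obtain ⟨b, c, d⟩ := D3.ex' a
      have := t3 b c d.1 _ (g1 a)
      rw [tp, gmul, DD_univ (g1 a), map_neg, g2, s1, one_smul,
        swap_apply_of_ne_of_ne d.2.1 d.2.2] at this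
      exact half this.symm
    have he : ∀ a b c, D3 a b c → N.ρ a b (e a) = e a + e b ∧ N.ρ a b (e b) = e b ∧
        N.ρ a b (e c) = e c := fun a b c d => by
      obtain ⟨k1, k2, k3, -⟩ := g3 a b c d
      exact ⟨by rw [k1, one_smul], k2, by rw [k3, g0, add_zero]⟩
    have k0 : ∀ a b, a ≠ b → ∀ v ∈ Se N.toWS ∅, N.ρ a b v ∈ Se N.toWS ∅ := fun a b h v hv => by
      obtain ⟨c, d⟩ := D3.ex h
      have h1 := gap (N.ε_other a b c h d.2.1 d.2.2).eq v
      rw [gmul, gmul, Se_pos hv (by simp)] at h1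
      obtain ⟨x, y, u, hu, k⟩ := hA.pos d h1
      have h2 := DD_ρ hc h v
      rw [DD_zero hv, k, map_add, map_add, map_smul, map_smul, DD_one (hA.2.1 a).2,
        DD_one (hA.2.1 b).2, DD_zero hu] at h2
      obtain ⟨x0, y0, -⟩ := hA.uniq d (x := 2 * x) (y := 2 * y) (z := 0) (Submodule.zero_mem _)
        (Submodule.zero_mem _) (by linear_combination (norm := module) -h2)
      have x1 : x = 0 := by simpa using x0
      have y1 : y = 0 := by simpa using y0
      rw [k, x1, y1]
      simpa using hu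
    have k3' : ∀ a b c, D3 a b c → ∀ v ∈ Se N.toWS Finset.univ, ∃ z : ℂ,
        ∃ w ∈ Se N.toWS Finset.univ, N.ρ a b v = z • e c + w ∧ N.ρ c b v = -(z • e a) + w :=
      fun a b c d v hv => by
        have h1 := gap (N.ε_other a b c d.1 d.2.1 d.2.2).eq v
        rw [gmul, gmul, Se_neg hv (by simp), map_neg] at h1
        obtain ⟨z, w, hw, k⟩ := hA.neg h1
        refine ⟨z, w, hw, k, ?_⟩
        have h2 := tp_ρ hc a c d.1 v
        rw [t3 a c d.2.1.symm v hv, k, map_add, t3 a c d.2.1.symm w hw, map_smul, tp, gmul,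
          DD_one (hA.2.1 c).2, map_neg, hA.2.2.1, s1, one_smul, swap_apply_right, swap_apply_left,
          swap_apply_of_ne_of_ne d.1.symm d.2.2.symm] at h2
        rw [← h2, smul_neg]
    have k3 : ∀ a b, a ≠ b → ∀ v ∈ Se N.toWS Finset.univ, N.ρ a b v ∈ Se N.toWS Finset.univ :=
      fun a b h v hv => by
        obtain ⟨c, d⟩ := D3.ex h
        obtain ⟨z, w, hw, e1, e2⟩ := k3' a b c d v hv
        obtain ⟨z', w', -, e3, e4⟩ := k3' a b c d w hw
        have h1 := gap (ρ_ρ_col N d).eq v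
        rw [gmul, gmul, e1, e2, map_add, map_add, map_neg, map_smul, map_smul, e3, e4,
          (he a b c d).1, (he c b a d.perm.2.2.1).1] at h1
        obtain ⟨-, y0, -⟩ := hA.uniq d (x := z - z') (y := 2 * z) (z := z - z')
          (Submodule.zero_mem _) (Submodule.zero_mem _) (by linear_combination (norm := module) -h1)
        have z0 : z = 0 := by simpa using y0
        rw [e1, z0]
        simpa using hw
    refine ⟨e, fun i => (hA.2.1 i).2, fun p i => by rw [hA.2.2.1, s1, one_smul], fun v => ?_, he⟩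
    obtain ⟨c, u, hu, w, hw, k⟩ := hA.2.2.2.1 v
    refine ⟨c, u + w, by rw [k, add_assoc], fun a b => ?_, fun a b h => ⟨?_, ?_⟩⟩
    · rw [map_add, Se_pos hu (by simp), Se_neg hw (by simp), map_add, map_neg, Se_pos hu (by simp),
        Se_neg hw (by simp), neg_neg]
    · rw [map_add, t0 a b h u hu, t3 a b h w hw]
    · rw [map_add, triv hc _ t0 k0 h hu, triv hc _ t3 k3 h hw]
  · right
    have li : LinearIndependent ℂ (Sum.elim e g) := by
      rw [Fintype.linearIndependent_iff]
      intro x hx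
      rw [Fintype.sum_sum_type] at hx
      simp only [Sum.elim_inl, Sum.elim_inr] at hx
      have hm : ∑ i, x (Sum.inr i) • g i ∈ Se N.toWS Finset.univ :=
        Submodule.sum_mem _ fun i _ => Submodule.smul_mem _ _ (g1 i)
      rw [d0.sum] at hx
      obtain ⟨x0, x1, x2, -, hs⟩ := hA.uniq d0 (Submodule.zero_mem _) hm (by rw [add_zero]; exact hx)
      rintro (i | b)
      · rcases d0.cover i with rfl | rfl | rfl <;> assumption
      · obtain ⟨c, a, d'⟩ := D3.ex' b
        have d : D3 a b c := d'.perm.2.2.2.1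
        rw [d.sum] at hs
        obtain ⟨-, -, -, k1, k2, k3⟩ := g3 a b c d
        have h1 := congrArg (N.ρ a b) hs
        rw [map_add, map_add, map_smul, map_smul, map_smul, k1, k2, k3, map_zero] at h1
        obtain ⟨-, -, z0, -⟩ := hA.uniq d (x := 0) (y := 0) (z := 2 * x (Sum.inr b))
          (Submodule.zero_mem _) (Submodule.smul_mem _ (x (Sum.inr b)) (g1 a))
          (by linear_combination (norm := module) h1 - hs)
        simpa using z0
    have hcard := li.fintype_card_le_finrank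
    simp only [Fintype.card_sum, Fintype.card_fin] at hcard
    refine ⟨e, g, li, (li.span_eq_top_of_card_eq_finrank' ?_).ge, fun i => (hA.2.1 i).2, g1,
      hA.2.2.1, g2, fun a b c d => ?_⟩
    · simp only [Fintype.card_sum, Fintype.card_fin]
      omega
    · obtain ⟨k1, k2, k3, k4, k5, k6⟩ := g3 a b c d
      exact ⟨by rw [k1]; module, k2, k3, k4, by rw [k5]; module, k6⟩

end Pool.Agent.MP_3ce0a0_al.H79.Y
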